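import Pool.Agent.Helper724_BK.Final

set_option autoImplicit false

open Set MeasureTheory

namespace Pool.Agent.Results.MP_20bec2_an.NonRealisable

/-- `g` is `ω`-continuous on `A`: `|g x - g y| ≤ C ω(|x - y|)` for all `x, y ∈ A` at distance at
most `t₀`. -/
def OmegaContinuousOn {d : ℕ} (ω : ℝ → ℝ)
    (g : EuclideanSpace ℝ (Fin d) → EuclideanSpace ℝ (Fin d))
    (A : Set (EuclideanSpace ℝ (Fin d))) : Prop :=
  ∃ C t₀ : ℝ, 0 < C ∧ 0 < t₀ ∧ ∀ x ∈ A, ∀ y ∈ A, dist x y ≤ t₀ →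
    dist (g x) (g y) ≤ C * ω (dist x y)

/-- The unit cube `I^d = [0,1]^d` of Euclidean space. -/
def unitCube (d : ℕ) : Set (EuclideanSpace ℝ (Fin d)) := {x | ∀ i, 0 ≤ x i ∧ x i ≤ 1}

/-- The density `ρ` on `I^d` is bi-`ω` realisable: there is an injective `f : I^d → ℝ^d`, with `f`
and the inverse `g` of `f` both `ω`-continuous (on `I^d` and on `f(I^d)`), which solves the
pushforward equation `∫_{f⁻¹(B)} ρ = volume (B ∩ f(I^d))` for every Borel set `B`. -/
def Realisable (d : ℕ) (ω : ℝ → ℝ) (ρ : EuclideanSpace ℝ (Fin d) → ℝ) : Prop :=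
  ∃ f g : EuclideanSpace ℝ (Fin d) → EuclideanSpace ℝ (Fin d),
    InjOn f (unitCube d) ∧ OmegaContinuousOn ω f (unitCube d) ∧
    (∀ x ∈ unitCube d, g (f x) = x) ∧ OmegaContinuousOn ω g (f '' unitCube d) ∧
    ∀ B : Set (EuclideanSpace ℝ (Fin d)), MeasurableSet B →
      ∫⁻ x in unitCube d ∩ f ⁻¹' B, ENNReal.ofReal (ρ x) = volume (B ∩ f '' unitCube d)

/-- **In every dimension `d ≥ 2` there is a continuous positive density which is bi-`ω`
non-realisable for every modulus `ω` with `ω(t) ≤ t (log (1/t))^α` near `0` for some `α < 1/2`.** -/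
theorem result :
    ∀ d : ℕ, 2 ≤ d → ∃ ρ : EuclideanSpace ℝ (Fin d) → ℝ, Continuous ρ ∧ (∀ x, 0 < ρ x) ∧
      ∀ ω : ℝ → ℝ,
        (∃ α t₁ : ℝ, α < 1 / 2 ∧ 0 < t₁ ∧ ∀ t : ℝ, 0 < t → t < t₁ →
          ω t ≤ t * (Real.log (1 / t)) ^ α) →
        ¬ Realisable d ω ρ := by
  intro d hd
  obtain ⟨m, rfl⟩ : ∃ m, d = m + 1 := ⟨d - 1, by omega⟩
  obtain ⟨ρ, hρc, hρ1, hno⟩ := Pool.Agent.Helper724BK.assembly (m := m) (by omega)
  refine ⟨ρ, hρc, fun x => lt_of_lt_of_le one_pos (hρ1 x), ?_⟩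
  rintro ω ⟨α, t₁, hα, ht₁, hω⟩ ⟨f, g, hinj, ⟨C, t, hC, ht, hf⟩, hgf, ⟨C', t', hC', ht', hg⟩, hpush⟩
  set T := min (min t t') (t₁ / 2) with hT
  have hT0 : 0 < T := lt_min (lt_min ht ht') (by linarith)
  have hTt : T ≤ t := (min_le_left _ _).trans (min_le_left _ _)
  have hTt' : T ≤ t' := (min_le_left _ _).trans (min_le_right _ _)
  have hTt1 : T < t₁ := lt_of_le_of_lt (min_le_right _ _) (by linarith)
  have hpos : 0 < max C C' := lt_of_lt_of_le hC (le_max_left _ _)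
  -- the bound by the logarithmic modulus is nonnegative at the distances in question
  have key : ∀ (D : ℝ) (c : ℝ) (X : ℝ), 0 < c → c ≤ max C C' → 0 ≤ X → 0 < D → D < t₁ →
      X ≤ c * ω D → X ≤ max C C' * (D * Real.log (1 / D) ^ α) := by
    intro D c X hc hcC hX hD hD1 h
    have h1 := hω D hD hD1
    have h2 : X ≤ c * (D * Real.log (1 / D) ^ α) := h.trans (mul_le_mul_of_nonneg_left h1 hc.le)
    have h3 : 0 ≤ D * Real.log (1 / D) ^ α := by
      by_contra hneg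
      push Not at hneg
      nlinarith
    exact h2.trans (mul_le_mul_of_nonneg_right hcC h3)
  refine hno α hα f (max C C') T hpos hT0 hinj ?_ ?_ hpush
  · intro x hx y hy hxy
    rcases (dist_nonneg (x := x) (y := y)).eq_or_lt with h0 | h0
    · have : x = y := dist_eq_zero.1 h0.symm
      subst this; simp
    · exact key _ C _ hC (le_max_left _ _) dist_nonneg h0 (lt_of_le_of_lt hxy hTt1)
        (hf x hx y hy (hxy.trans hTt))
  · intro x hx y hy hxy
    rcases (dist_nonneg (x := f x) (y := f y)).eq_or_lt with h0 | h0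
    · have : x = y := hinj hx hy (dist_eq_zero.1 h0.symm)
      subst this; simp
    · have h1 := hg (f x) ⟨x, hx, rfl⟩ (f y) ⟨y, hy, rfl⟩ (hxy.trans hTt')
      rw [hgf x hx, hgf y hy] at h1
      exact key _ C' _ hC' (le_max_right _ _) dist_nonneg h0 (lt_of_le_of_lt hxy hTt1) h1

end Pool.Agent.Results.MP_20bec2_an.NonRealisable
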