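import Pool.Agent.helper312_gd.Main
import Pool.Agent.helper312_gd.Transfer

set_option autoImplicit false

open Set MeasureTheory Pool.Agent.helper312_gd

namespace Pool.Agent.Results.MP_20bec2_an.PolylogAllDims

/-- `g` is `ω`-continuous on `A`: `|g x - g y| ≤ C ω(|x - y|)` for all `x, y ∈ A` at distance at
most `t₀`. -/
def OmegaContinuousOn {d : ℕ} (ω : ℝ → ℝ)
    (g : EuclideanSpace ℝ (Fin d) → EuclideanSpace ℝ (Fin d))
    (A : Set (EuclideanSpace ℝ (Fin d))) : Prop :=
  ∃ C t₀ : ℝ, 0 < C ∧ 0 < t₀ ∧ ∀ x ∈ A, ∀ y ∈ A, dist x y ≤ t₀ →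
    dist (g x) (g y) ≤ C * ω (dist x y)

/-- The unit cube `I^d = [0,1]^d` of Euclidean space. -/
def unitCube (d : ℕ) : Set (EuclideanSpace ℝ (Fin d)) := {x | ∀ i, 0 ≤ x i ∧ x i ≤ 1}

/-- The density `ρ` on `I^d` is bi-`ω` realisable: there is an injective `f : I^d → ℝ^d`, with `f`
and the inverse `g` of `f` both `ω`-continuous (on `I^d` and on `f(I^d)`), which solves the
pushforward equation `∫_{f⁻¹(B)} ρ = volume (B ∩ f(I^d))` for every Borel set `B`. -/
def Realisable (d : ℕ) (ω : ℝ → ℝ) (ρ : EuclideanSpace ℝ (Fin d) → ℝ) : Prop :=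
  ∃ f g : EuclideanSpace ℝ (Fin d) → EuclideanSpace ℝ (Fin d),
    InjOn f (unitCube d) ∧ OmegaContinuousOn ω f (unitCube d) ∧
    (∀ x ∈ unitCube d, g (f x) = x) ∧ OmegaContinuousOn ω g (f '' unitCube d) ∧
    ∀ B : Set (EuclideanSpace ℝ (Fin d)), MeasurableSet B →
      ∫⁻ x in unitCube d ∩ f ⁻¹' B, ENNReal.ofReal (ρ x) = volume (B ∩ f '' unitCube d)

theorem unitCube_measurable (d : ℕ) : MeasurableSet (unitCube d) := by
  have : unitCube d = ⋂ i, {x : EuclideanSpace ℝ (Fin d) | 0 ≤ x i ∧ x i ≤ 1} := by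
    ext x; simp [unitCube]
  rw [this]
  refine MeasurableSet.iInter fun i => ?_
  have hm : Measurable (fun x : EuclideanSpace ℝ (Fin d) => x i) :=
    (EuclideanSpace.proj (𝕜 := ℝ) i).continuous.measurable
  exact (measurableSet_le measurable_const hm).inter (measurableSet_le hm measurable_const)

/-- **In every dimension `d ≥ 2`, every measurable density on the unit cube that is bounded and
bounded away from zero (in particular every continuous positive density) is bi-`ω` realisable for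
`ω(t) = t (log (1/t))^(d+3)`.** -/
theorem result :
    ∀ (d : ℕ), 2 ≤ d → ∀ (a b : ℝ), 0 < a → a ≤ b → ∀ ρ : EuclideanSpace ℝ (Fin d) → ℝ,
      Measurable (fun x : unitCube d => ρ x) → (∀ x ∈ unitCube d, a ≤ ρ x ∧ ρ x ≤ b) →
      Realisable d (fun t => t * (Real.log (1 / t)) ^ (d + 3)) ρ := by
  classical
  intro d hd a b ha hab ρ hρm hρ
  obtain ⟨n, rfl⟩ : ∃ n, d = n + 1 := ⟨d - 1, by omega⟩
  have hn : 1 ≤ n := by omega
  set ρ' : EuclideanSpace ℝ (Fin (n + 1)) → ℝ :=
    fun x => if x ∈ unitCube (n + 1) then ρ x else a with hρ'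
  have heq : ∀ x ∈ unitCube (n + 1), ρ' x = ρ x := fun x hx => by simp [hρ', hx]
  have hm' : Measurable ρ' := by
    refine measurable_of_restrict_of_restrict_compl (unitCube_measurable (n + 1)) ?_ ?_
    · convert hρm using 1
      funext x
      exact heq x x.2
    · have : (fun x : ((unitCube (n + 1))ᶜ : Set (EuclideanSpace ℝ (Fin (n + 1)))) => ρ' x)
          = fun _ => a := by
        funext x
        exact if_neg x.2
      show Measurable (fun x : ((unitCube (n + 1))ᶜ : Set (EuclideanSpace ℝ (Fin (n + 1)))) =>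
        ρ' x)
      rw [this]
      exact measurable_const
  have h' : ∀ x ∈ unitCube (n + 1), a ≤ ρ' x ∧ ρ' x ≤ b := fun x hx => by
    rw [heq x hx]; exact hρ x hx
  obtain ⟨f, g, h1, h2, h3, h4, h5⟩ :=
    transfer_gd n (n + 4) a b ha
      (fun ρ'' hm hb' => main_planar n hn a b ha ρ'' hm hb') ρ' hm' h' hab
  have h5' : ∀ B : Set (EuclideanSpace ℝ (Fin (n + 1))), MeasurableSet B →
      ∫⁻ x in unitCube (n + 1) ∩ f ⁻¹' B, ENNReal.ofReal (ρ' x)
        = volume (B ∩ f '' unitCube (n + 1)) := h5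
  refine ⟨f, g, h1, h2, h3, h4, fun B hB => ?_⟩
  rw [← h5' B hB]
  have hle : volume.restrict (unitCube (n + 1) ∩ f ⁻¹' B)
      ≤ volume.restrict (unitCube (n + 1)) :=
    Measure.restrict_mono_set _ inter_subset_left
  refine lintegral_congr_ae ?_
  have : ∀ᵐ x ∂(volume.restrict (unitCube (n + 1))),
      ENNReal.ofReal (ρ x) = ENNReal.ofReal (ρ' x) := by
    filter_upwards [ae_restrict_mem (unitCube_measurable (n + 1))] with x hx
    rw [heq x hx]
  exact hle.absolutelyContinuous.ae_le this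

end Pool.Agent.Results.MP_20bec2_an.PolylogAllDims
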